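import Pool.Agent.Q240.EW.Cw

/-! # Project EW2: negative directions, with the number of the zeros off the line -/

set_option autoImplicit false

open Complex Filter Topology Set MeasureTheory

namespace Pool.Agent.Q240.EW

open Pool.Agent.Y23 (Zt IsZ mu)

lemma clamp_le {x B T : ℝ} (hx : |x| ≤ B) : |x - max (-B) (min B T)| ≤ |x - T| := by
  obtain ⟨h1, h2⟩ := abs_le.1 hx
  rcases le_total B T with h3 | h3
  · rw [min_eq_left h3, max_eq_right (by linarith)]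
    rw [abs_of_nonpos (by linarith), abs_of_nonpos (by linarith)]
    linarith
  · rw [min_eq_right h3]
    rcases le_total (-B) T with h4 | h4
    · rw [max_eq_right h4]
    · rw [max_eq_left h4, abs_of_nonneg (by linarith), abs_of_nonneg (by linarith)]
      linarith

lemma clamp_bd {B T : ℝ} (hB : 0 ≤ B) : |max (-B) (min B T)| ≤ B := by
  rw [abs_le]
  exact ⟨le_max_left _ _, max_le (by linarith) (min_le_left _ _)⟩

theorem ew4 (h3 : S_EW3) : ∀ τ ε : ℝ, 0 < τ → τ < 2 * Real.pi → 0 < ε → ∃ κ C A : ℝ, 0 < κ ∧ 0 < C ∧ ∀ (a Y : ℝ) (ν : ℕ∞), A ≤ a → 0 ≤ Y → Y ≤ Real.exp (2 * a) →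
    ((⌈(τ / Real.pi + ε) * a * Real.exp (2 * a)⌉₊ : ℕ) : ℕ∞) ≤ ν → ∀ (m : ℕ) (L : Fin m → (ℝ → ℂ) →ₗ[ℂ] ℂ),
      (∀ f : ℝ → ℂ, Y23.G.F.Hn a ν f → (∀ j, L j f = 0) → -(Real.exp (-Y) * Y23.N2 f) ≤ Y23.QQ f) →
        (∃ T : Fin m → ℝ, ∀ ρ : ℂ, IsZ ρ → |ρ.im| ≤ τ * Real.exp (2 * a) → Real.exp (-(κ * Y / a)) < |ρ.re - 1 / 2| → ∃ j, |ρ.im - T j| ≤ C * Y) ∧
        ∀ S : Finset ℂ, (∀ ρ ∈ S, IsZ ρ ∧ |ρ.im| ≤ τ * Real.exp (2 * a) ∧ Real.exp (-(κ * Y / a)) < |ρ.re - 1 / 2|) →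
          ((∑ ρ ∈ S, mu ρ : ℕ) : ℝ) ≤ C * m * a * Y := by
  classical
  intro τ ε hτ0 hτ hε
  obtain ⟨κ, C0, A0, hκ, hC0, h⟩ := h3 τ ε hτ0 hτ hε
  obtain ⟨K, hK, hcw⟩ := cw
  have hpi4 := Real.pi_lt_d2
  obtain ⟨β, hβ⟩ : ∃ β : ℝ, β = 3 * (7 + C0 + 1) := ⟨_, rfl⟩
  have hβ0 : 0 < β := by rw [hβ]; positivity
  obtain ⟨C1, hC1⟩ : ∃ C1 : ℝ, C1 = K * (C0 + 1) * (3 + β + 2) := ⟨_, rfl⟩
  have hC10 : 0 < C1 := by rw [hC1]; positivity
  refine ⟨κ, C0 + C1, 1 + |A0| + 2 * κ, hκ, by positivity, fun a Y ν hA hY0 hYX hν m L hL => ?_⟩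
  have q0 := le_abs_self A0
  have n0 := abs_nonneg A0
  have ha1 : 1 ≤ a := by linarith
  have ha0 : 0 < a := by linarith
  obtain ⟨X, hX⟩ : ∃ X : ℝ, X = Real.exp (2 * a) := ⟨_, rfl⟩
  have hX1 : 1 ≤ X := by rw [hX]; exact Real.one_le_exp (by positivity)
  obtain ⟨T, hT⟩ := h a Y ν (by linarith) hY0 hYX hν m L hL
  rw [← hX] at hYX hT ⊢
  have hwin : ∀ ρ : ℂ, IsZ ρ → |ρ.im| ≤ τ * X → Real.exp (-(κ * Y / a)) < |ρ.re - 1 / 2| → ∃ j, |ρ.im - T j| ≤ C0 * Y := by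
    intro ρ hz hρ hd
    by_contra hne
    push Not at hne
    have := hT ⟨ρ, hz⟩ hρ hne
    exact absurd hd (not_lt.2 this)
  refine ⟨⟨T, fun ρ hz hρ hd => ?_⟩, fun S hS => ?_⟩
  · obtain ⟨j, hj⟩ := hwin ρ hz hρ hd
    refine ⟨j, hj.trans ?_⟩
    have : 0 ≤ C1 * Y := by positivity
    linarith
  · rcases S.eq_empty_or_nonempty with rfl | ⟨ρ0, hρ0⟩
    · simp only [Finset.sum_empty, Nat.cast_zero]; positivity
    · -- the number `Y` is not small
      obtain ⟨hz0, _, hd0⟩ := hS ρ0 hρ0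
      have hre : |ρ0.re - 1 / 2| < 1 / 2 := by
        rw [abs_lt]; constructor <;> linarith [hz0.2.1, hz0.2.2]
      have hY1 : 1 ≤ Y := by
        by_contra hY
        push Not at hY
        have h5 : κ * Y / a ≤ 1 / 2 := by
          rw [div_le_iff₀ ha0]
          have : κ * Y ≤ κ * 1 := mul_le_mul_of_nonneg_left hY.le hκ.le
          linarith
        have h6 : (1 : ℝ) / 2 ≤ Real.exp (-(1 / 2)) := by
          have := Real.add_one_le_exp (-(1 / 2) : ℝ)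
          linarith
        have h7 : Real.exp (-(1 / 2)) ≤ Real.exp (-(κ * Y / a)) := Real.exp_le_exp.2 (by linarith)
        linarith
      obtain ⟨R, hR⟩ : ∃ R : ℝ, R = (C0 + 1) * Y := ⟨_, rfl⟩
      have hR1 : 1 ≤ R := by rw [hR]; nlinarith
      obtain ⟨B, hB⟩ : ∃ B : ℝ, B = (7 + C0 + 1) * X := ⟨_, rfl⟩
      have hτX : τ * X ≤ B := by rw [hB]; exact mul_le_mul_of_nonneg_right (by linarith) (by linarith)
      have hRB : R ≤ B := by rw [hR, hB]; exact mul_le_mul (by linarith) hYX hY0 (by positivity)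
      set T' : Fin m → ℝ := fun j => max (-(τ * X)) (min (τ * X) (T j)) with hT'
      have h8 : ∀ ρ ∈ S, (mu ρ : ℝ) ≤ ∑ j : Fin m, if |ρ.im - T' j| ≤ R then (mu ρ : ℝ) else 0 := by
        intro ρ hρ
        obtain ⟨hz, hρt, hd⟩ := hS ρ hρ
        obtain ⟨j, hj⟩ := hwin ρ hz hρt hd
        have h9 : |ρ.im - T' j| ≤ R := (clamp_le hρt).trans (hj.trans (by rw [hR]; linarith))
        have h10 := Finset.single_le_sum (f := fun j : Fin m => if |ρ.im - T' j| ≤ R then (mu ρ : ℝ) else 0)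
          (fun i _ => by split_ifs; exacts [Nat.cast_nonneg _, le_rfl]) (Finset.mem_univ j)
        rwa [if_pos h9] at h10
      have hlog : Real.log (3 + 3 * B) ≤ (3 + β + 2) * a := by
        have e1 : 3 + 3 * B ≤ (3 + β) * X := by
          rw [hB, hβ]; nlinarith
        have e2 : Real.log ((3 + β) * X) = Real.log (3 + β) + 2 * a := by
          rw [Real.log_mul (by positivity) (by positivity), hX, Real.log_exp]
        have e3 : Real.log (3 + β) ≤ 3 + β := (Real.log_le_sub_one_of_pos (by positivity)).trans (by linarith)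
        have hB0 : 0 ≤ B := by linarith [hR1, hRB]
        have e4 := Real.log_le_log (by positivity) e1
        rw [e2] at e4
        nlinarith
      push_cast
      calc ∑ ρ ∈ S, (mu ρ : ℝ) ≤ ∑ ρ ∈ S, ∑ j : Fin m, (if |ρ.im - T' j| ≤ R then (mu ρ : ℝ) else 0) := Finset.sum_le_sum h8
        _ = ∑ j : Fin m, ∑ ρ ∈ S.filter (fun ρ => |ρ.im - T' j| ≤ R), (mu ρ : ℝ) := by
            rw [Finset.sum_comm]
            exact Finset.sum_congr rfl fun j _ => (Finset.sum_filter _ _).symm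
        _ ≤ ∑ _j : Fin m, K * R * ((3 + β + 2) * a) := by
            refine Finset.sum_le_sum fun j _ => ?_
            have h11 := hcw (S.filter (fun ρ => |ρ.im - T' j| ≤ R)) (T' j) R B (fun ρ hρ => (hS ρ (Finset.mem_filter.1 hρ).1).1)
              (fun ρ hρ => (Finset.mem_filter.1 hρ).2) hR1 ((clamp_bd (by positivity)).trans hτX) hRB
            push_cast at h11
            exact h11.trans (mul_le_mul_of_nonneg_left hlog (by positivity))
        _ = m * (K * R * ((3 + β + 2) * a)) := by rw [Finset.sum_const, Finset.card_univ, Fintype.card_fin, nsmul_eq_mul]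
        _ = C1 * m * a * Y := by rw [hR, hC1]; ring
        _ ≤ _ := by
            have : 0 ≤ C0 * m * a * Y := by positivity
            linarith

end Pool.Agent.Q240.EW
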