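import Pool.Agent.Q240.EW.Stm2

set_option autoImplicit false

/-!
# Project EW2, third part: several functions
-/

open Filter Topology Finset MeasureTheory

namespace Pool.Agent.Q240.EW

/-- **Mul**: Weil's form on the combinations of functions whose transforms are concentrated (on the zeros) at separated heights.
Proof. `F i w = TT (f i) w`, `w = ρ - 1/2`, `v = Im ρ`. The sum is in `Hn` (`Hn.smul`, `Hn.add`, `Hn.zero`, induction over a finset), `TT` of it is `∑ c i F i`. In `QQ = ∑' mu Re (TT f w * conj (TT f (- conj w)))` (`GG`) the term is `∑ i ‖c i‖² Re (F i w conj (F i (- conj w)))` plus at most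
`∑_{i ≠ j} ‖c i‖ ‖c j‖ ‖F i w‖ ‖F j (- conj w)‖`; `- conj w = rfZ ρ - 1/2` has the same imaginary part and the same norm. For `i ≠ j`: `exp (- c1 |v - t i|) exp (- c1 |v - t j|) ≤ exp (- c1 R / 2) exp (- c1 |v - t i| / 2)`, and `1 / (1 + ‖w‖)² ≤ 1 / (1 + v²)`, so
`‖F i w‖ ‖F j (- conj w)‖ ≤ D² (exp (- c1 R / 2) exp (- c1 |v - t i| / 2) + 3 θ / (1 + v²))`. `exp (- c1 |y| / 2) ≤ C / (1 + y²)`, and `zsum_le` (`zsummable`) for `t i` and for `0` (`Lg t = log (3 + |t|) ≤ log (3 + T)`). Summability of the diagonal terms: `GG_sum` in `Q240/EW/Core.lean` (or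
`dom_of_Hd`); `tsum` of finite sums. The last claim: `‖∑ c i f i x‖² ≤ m ∑ ‖c i‖² ‖f i x‖²` (`Finset.sum_mul_sq_le_sq_mul_sq` or `inner_mul_le_norm_mul_norm`), integrate. (`N2_add_le`, `Fa.sq_int` in `Y23`.) -/
def S_Mul : Prop := ∀ c1 : ℝ, 0 < c1 → ∃ C : ℝ, 0 < C ∧ ∀ (a : ℝ) (ν : ℕ∞) (m : ℕ) (f : Fin m → ℝ → ℂ) (t : Fin m → ℝ) (R D θ T : ℝ) (c : Fin m → ℂ),
  0 < a → (∀ i, Y23.G.F.Hn a ν (f i)) → 0 ≤ R → 0 ≤ D → 0 ≤ θ → θ ≤ 1 → (∀ i, |t i| ≤ T) → (∀ i j, i ≠ j → R ≤ |t i - t j|) →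
  (∀ (i : Fin m) (ρ : Y23.Zt), ‖Y23.TT (f i) ((ρ : ℂ) - 1 / 2)‖ ≤ D * (Real.exp (-(c1 * |(ρ : ℂ).im - t i|)) + θ / (1 + ‖(ρ : ℂ) - 1 / 2‖) ^ 2)) →
    Y23.G.F.Hn a ν (fun x => ∑ i, c i * f i x) ∧
    Y23.QQ (fun x => ∑ i, c i * f i x) ≤ ∑ i, ‖c i‖ ^ 2 * Y23.QQ (f i) + C * D ^ 2 * Real.log (3 + T) * (Real.exp (-(c1 * R / 2)) + θ) * (∑ i, ‖c i‖) ^ 2 ∧
    Y23.N2 (fun x => ∑ i, c i * f i x) ≤ m * ∑ i, ‖c i‖ ^ 2 * Y23.N2 (f i)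

end Pool.Agent.Q240.EW
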