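import Pool.Agent.Q240.EW.Stm

/-! # Project EW: the resolvent function -/

set_option autoImplicit false
set_option maxHeartbeats 2000000

open Complex Filter Topology Set MeasureTheory
open scoped ComplexConjugate
open Pool.Agent.H24R2.JP (XX)

namespace Pool.Agent.Q240.EW

open Pool.Agent.Y23 (TT Fa N2 QQ Zt mu GG rfZ rfZ_sub mu_rfZ half_re Lg zsum_le zsummable plancherel Dom)

lemma zden (w : ℂ) : 1 / (1 + ‖w‖) ^ 2 ≤ 1 / (1 + (w.im - 0) ^ 2) := by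
  apply one_div_le_one_div_of_le (by positivity)
  have h := Complex.abs_im_le_norm w
  have h2 := abs_nonneg w.im
  rw [sub_zero, ← sq_abs]
  nlinarith

lemma N2_div_off {a : ℝ} {f g : ℝ → ℂ} (hf : Fa a f) (hg : Fa a g) {z : ℂ} (h : ∀ w, (w - z) * TT g w = TT f w) :
    z.re ^ 2 * N2 g ≤ N2 f := by
  have h1 := plancherel hg
  have h2 := plancherel hf
  have h3 : ∫ v : ℝ, z.re ^ 2 * ‖TT g (v * I)‖ ^ 2 ≤ ∫ v : ℝ, ‖TT f (v * I)‖ ^ 2 := by
    refine integral_mono ((Y23.int_TT_sq hg).const_mul _) (Y23.int_TT_sq hf) fun v => ?_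
    simp only
    rw [← h (v * I), norm_mul, mul_pow]
    refine mul_le_mul_of_nonneg_right ?_ (by positivity)
    have h4 := Complex.abs_re_le_norm ((v : ℂ) * I - z)
    have e : ((v : ℂ) * I - z).re = -z.re := by simp
    rw [e, abs_neg] at h4
    rw [← sq_abs z.re]
    exact pow_le_pow_left₀ (abs_nonneg _) h4 2
  rw [integral_const_mul, h1, h2] at h3
  have hpi : 0 < 2 * Real.pi := by positivity
  have e : z.re ^ 2 * (2 * Real.pi * N2 g) = 2 * Real.pi * (z.re ^ 2 * N2 g) := by ring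
  rw [e] at h3
  exact le_of_mul_le_mul_left h3 hpi

/-- the terms of Weil's form are summable -/
lemma GG_sum {a : ℝ} (ha : 0 < a) {ν : ℕ∞} {f : ℝ → ℂ} (hf : Y23.G.F.Hn a ν f) :
    Summable (fun ρ : Zt => (mu ρ : ℝ) * (GG f f ((ρ : ℂ) - 1 / 2)).re) := by
  obtain ⟨_, _, h⟩ := Y23.dom_of_Hd ha
  have hD : Dom f := (h f ⟨hf.1, hf.2.1⟩).1
  refine Summable.of_norm_bounded (hD.add hD.refl) fun ρ => ?_
  set w : ℂ := (ρ : ℂ) - 1 / 2
  rw [Real.norm_eq_abs, abs_mul, abs_of_nonneg (Nat.cast_nonneg _ : (0 : ℝ) ≤ (mu ρ : ℝ)), ← mul_add]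
  refine mul_le_mul_of_nonneg_left ?_ (Nat.cast_nonneg _)
  refine (Complex.abs_re_le_norm _).trans ?_
  unfold GG
  rw [norm_mul, Complex.norm_conj]
  nlinarith [sq_nonneg (‖TT f w‖ - ‖TT f (-conj w)‖), sq_nonneg (‖TT f w‖), sq_nonneg (‖TT f (-conj w)‖)]

/-- the core estimate -/
theorem core (hS : S_Sum) : ∀ M : ℝ, 0 < M → ∃ C : ℝ, 0 ≤ C ∧ ∀ (a : ℝ) (ν : ℕ∞) (G0 G1 : ℝ → ℂ) (κ0 : ℂ → ℂ) (U : ℂ) (x t θ d0 : ℝ),
    0 < a → Y23.G.F.Hn a ν G0 → Y23.G.F.Hn a ν G1 → 0 < x → x ≤ 1 / 2 → 0 < d0 → 0 ≤ θ → θ ≤ 1 → U ≠ 0 →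
    TT G0 (x + t * I) = U * TT G1 (x + t * I) →
    (∀ ρ : Zt, ‖TT G0 ((ρ : ℂ) - 1 / 2)‖ ≤ θ * ‖U‖ / (1 + ‖(ρ : ℂ) - 1 / 2‖) ^ 2) →
    (∀ w : ℂ, |w.re| ≤ 1 / 2 → ‖TT G1 w - κ0 w‖ ≤ θ / (1 + ‖w‖) ^ 2) →
    (∀ w : ℂ, κ0 (-conj w) = conj (κ0 w)) →
    (∀ w : ℂ, |w.re| ≤ 1 / 2 → ‖κ0 w‖ ≤ M / (1 + |w.im - t|)) →
    (∀ w : ℂ, |w.re| ≤ 1 / 2 → ‖κ0 w ^ 2 - 1‖ ≤ M * ‖w - (x + t * I)‖) →
    (∀ w : ℂ, |w.re| ≤ 1 / 2 → ‖κ0 w ^ 2 - 1‖ ≤ M * ‖w - (-x + t * I)‖) →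
    (∀ ρ : Zt, d0 ≤ ‖(ρ : ℂ) - 1 / 2 - (x + t * I)‖) →
    ∃ f : ℝ → ℂ, Y23.G.F.Hn a ν f ∧
      QQ f ≤ ‖U‖ ^ 2 * ((Lc t (x + t * I) + C * Real.log (2 + |t|)) / x + C * θ / d0 ^ 2) ∧
      x ^ 2 * N2 f ≤ 2 * N2 G0 + 2 * ‖U‖ ^ 2 * N2 G1 := by
  intro M hM
  obtain ⟨C1, hC1⟩ := hS M hM
  obtain ⟨K, hK, hKs⟩ := zsum_le
  set C : ℝ := max C1 ((4 * M + 4) * (K * Lg 0)) with hC
  have hLg0 : 0 < Lg 0 := Y23.Lg_pos 0
  have hC0 : 0 ≤ C := le_trans (by positivity) (le_max_right _ _)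
  refine ⟨C, hC0, ?_⟩
  intro a ν G0 G1 κ0 U x t θ d0 ha hG0 hG1 hx hx2 hd0 hθ0 hθ1 hU hz h0 h1 hsym hb hL1 hL2 hd
  set z : ℂ := x + t * I with hzd
  have hzre : z.re = x := by rw [hzd]; simp
  have hzim : z.im = t := by rw [hzd]; simp
  -- the function
  have hF : Y23.G.F.Hn a ν (fun v => G0 v - U * G1 v) := hG0.sub (hG1.smul U)
  have hFT : ∀ w, TT (fun v => G0 v - U * G1 v) w = TT G0 w - U * TT G1 w := by
    intro w
    rw [Y23.TT_sub hG0.1 (hG1.smul U).1, Y23.TT_smul]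
  obtain ⟨f, hf, hfT, _⟩ := hF.div ha z (Y23.G.F.ad_off (by rw [hzre]; exact hx.ne')) (by rw [hFT, hz]; ring)
  refine ⟨f, hf, ?_, ?_⟩
  · -- the form
    have hzne : ∀ ρ : Zt, (ρ : ℂ) - 1 / 2 ≠ x + t * I := by
      intro ρ h
      have := hd ρ
      rw [h, sub_self, norm_zero] at this
      linarith
    obtain ⟨hsum, hle⟩ := hC1 t x κ0 hx hx2 hzne hb hL1 hL2
    set T : Zt → ℝ := fun ρ => (mu ρ : ℝ) * (κ0 ((ρ : ℂ) - 1 / 2) ^ 2 / ((((ρ : ℂ) - 1 / 2) - (x + t * I)) * (((ρ : ℂ) - 1 / 2) - (-x + t * I)))).re with hT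
    -- the pointwise bound
    have hpt : ∀ ρ : Zt, (mu ρ : ℝ) * (GG f f ((ρ : ℂ) - 1 / 2)).re ≤
        ‖U‖ ^ 2 * (-T ρ + ((4 * M + 4) * θ / d0 ^ 2) * ((mu ρ : ℝ) * (1 / (1 + ((ρ : ℂ).im - 0) ^ 2)))) := by
      intro ρ
      set w : ℂ := (ρ : ℂ) - 1 / 2 with hw
      have hwre : |w.re| ≤ 1 / 2 := half_re ρ
      have hwim : w.im = (ρ : ℂ).im := by rw [hw]; simp
      have hw'eq : ((rfZ ρ : Zt) : ℂ) - 1 / 2 = -conj w := rfZ_sub ρ
      have hw're : |(-conj w).re| ≤ 1 / 2 := by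
        have : (-conj w).re = -w.re := by simp
        rw [this, abs_neg]; exact hwre
      have hnw' : ‖-conj w‖ = ‖w‖ := by rw [norm_neg]; exact Complex.norm_conj w
      have hd1 : d0 ≤ ‖w - z‖ := hd ρ
      have hd2 : d0 ≤ ‖w - (-x + t * I)‖ := by
        have h2 := hd (rfZ ρ)
        rw [hw'eq] at h2
        have e : -conj w - (x + t * I) = -conj (w - (-x + t * I)) := by
          simp only [map_sub, map_add, map_mul, map_neg, Complex.conj_ofReal, Complex.conj_I]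
          ring
        rw [e, norm_neg, Complex.norm_conj] at h2
        exact h2
      have hwz : w - z ≠ 0 := by
        intro h; rw [h, norm_zero] at hd1; linarith
      have hwz2 : w - (-x + t * I) ≠ 0 := by
        intro h; rw [h, norm_zero] at hd2; linarith
      -- the two values
      set r : ℂ → ℂ := fun w => TT G0 w / U - (TT G1 w - κ0 w) with hr
      have hr1 : ∀ ρ' : Zt, ‖r ((ρ' : ℂ) - 1 / 2)‖ ≤ 2 * θ / (1 + ‖(ρ' : ℂ) - 1 / 2‖) ^ 2 := by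
        intro ρ'
        simp only [hr]
        refine (norm_sub_le _ _).trans ?_
        have k1 : ‖TT G0 ((ρ' : ℂ) - 1 / 2) / U‖ ≤ θ / (1 + ‖(ρ' : ℂ) - 1 / 2‖) ^ 2 := by
          rw [norm_div, div_le_iff₀ (norm_pos_iff.2 hU)]
          refine (h0 ρ').trans (le_of_eq ?_)
          ring
        have k2 := h1 _ (half_re ρ')
        calc _ ≤ θ / (1 + ‖(ρ' : ℂ) - 1 / 2‖) ^ 2 + θ / (1 + ‖(ρ' : ℂ) - 1 / 2‖) ^ 2 := add_le_add k1 k2
          _ = _ := by ring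
      have hrw := hr1 ρ
      have hrw' := hr1 (rfZ ρ)
      rw [hw'eq, hnw'] at hrw'
      rw [← hw] at hrw
      have hval : ∀ w1 : ℂ, TT G0 w1 - U * TT G1 w1 = -(U * (κ0 w1 - r w1)) := by
        intro w1
        simp only [hr]
        field_simp
        ring
      have hf1 : TT f w = -(U * (κ0 w - r w)) / (w - z) := by
        rw [eq_div_iff hwz, mul_comm, hfT, hFT, hval]
      have hne' : -conj w - z ≠ 0 := by
        intro h
        apply hwz2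
        have e : -conj w - z = -conj (w - (-x + t * I)) := by
          rw [hzd]
          simp only [map_sub, map_add, map_mul, map_neg, Complex.conj_ofReal, Complex.conj_I]
          ring
        rw [e, neg_eq_zero, map_eq_zero] at h
        exact h
      have hf2 : conj (TT f (-conj w)) = (conj U * (κ0 w - conj (r (-conj w)))) / (w - (-x + t * I)) := by
        have e1 : TT f (-conj w) = -(U * (κ0 (-conj w) - r (-conj w))) / (-conj w - z) := by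
          rw [eq_div_iff hne', mul_comm, hfT, hFT, hval]
        rw [e1, hsym]
        simp only [map_div₀, map_neg, map_mul, map_sub, Complex.conj_conj]
        have e2 : -w - conj z = -(w - (-x + t * I)) := by
          rw [hzd]
          simp only [map_add, map_mul, Complex.conj_ofReal, Complex.conj_I]
          ring
        rw [e2, neg_div_neg_eq]
      have hGG : GG f f w = -(((‖U‖ ^ 2 : ℝ) : ℂ) * ((κ0 w - r w) * (κ0 w - conj (r (-conj w))) / ((w - z) * (w - (-x + t * I))))) := by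
        unfold GG
        rw [hf1, hf2]
        have e3 : U * conj U = ((‖U‖ ^ 2 : ℝ) : ℂ) := by
          rw [Complex.mul_conj, Complex.normSq_eq_norm_sq]
        rw [← e3]
        field_simp
      have hdiff : (κ0 w - r w) * (κ0 w - conj (r (-conj w))) / ((w - z) * (w - (-x + t * I))) =
          κ0 w ^ 2 / ((w - z) * (w - (-x + t * I))) +
          (-(κ0 w * conj (r (-conj w))) - r w * κ0 w + r w * conj (r (-conj w))) / ((w - z) * (w - (-x + t * I))) := by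
        ring
      set E : ℂ := (-(κ0 w * conj (r (-conj w))) - r w * κ0 w + r w * conj (r (-conj w))) / ((w - z) * (w - (-x + t * I))) with hE
      have hκb : ‖κ0 w‖ ≤ M := (hb w hwre).trans (div_le_self hM.le (by linarith [abs_nonneg (w.im - t)]))
      have hw1 : 1 ≤ (1 + ‖w‖) ^ 2 := by nlinarith [norm_nonneg w]
      have hEb : ‖E‖ ≤ ((4 * M + 4) * θ / d0 ^ 2) * (1 / (1 + ((ρ : ℂ).im - 0) ^ 2)) := by
        have k0 := zden w
        rw [hwim] at k0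
        have hq0 : 0 ≤ 2 * θ / (1 + ‖w‖) ^ 2 := by positivity
        have hq1 : 2 * θ / (1 + ‖w‖) ^ 2 ≤ 2 * θ := div_le_self (by linarith) hw1
        have hnum : ‖-(κ0 w * conj (r (-conj w))) - r w * κ0 w + r w * conj (r (-conj w))‖ ≤ (4 * M + 4) * θ * (1 / (1 + ‖w‖) ^ 2) := by
          refine (norm_add_le _ _).trans ?_
          have j1 := norm_sub_le (-(κ0 w * conj (r (-conj w)))) (r w * κ0 w)
          rw [norm_neg, norm_mul, norm_mul, Complex.norm_conj] at j1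
          have j2 : ‖κ0 w‖ * ‖r (-conj w)‖ ≤ M * (2 * θ / (1 + ‖w‖) ^ 2) := mul_le_mul hκb hrw' (norm_nonneg _) hM.le
          have j3 : ‖r w‖ * ‖κ0 w‖ ≤ (2 * θ / (1 + ‖w‖) ^ 2) * M := mul_le_mul hrw hκb (norm_nonneg _) hq0
          have j4 : ‖r w * conj (r (-conj w))‖ ≤ (2 * θ / (1 + ‖w‖) ^ 2) * 2 := by
            rw [norm_mul, Complex.norm_conj]
            exact mul_le_mul hrw (hrw'.trans (hq1.trans (by linarith))) (norm_nonneg _) hq0
          have e5 : (4 * M + 4) * θ * (1 / (1 + ‖w‖) ^ 2) = M * (2 * θ / (1 + ‖w‖) ^ 2) + (2 * θ / (1 + ‖w‖) ^ 2) * M + (2 * θ / (1 + ‖w‖) ^ 2) * 2 := by ring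
          rw [e5]
          linarith
        rw [hE, norm_div, norm_mul]
        have hden : d0 ^ 2 ≤ ‖w - z‖ * ‖w - (-x + t * I)‖ := by
          rw [sq]; exact mul_le_mul hd1 hd2 hd0.le (norm_nonneg _)
        calc _ ≤ ((4 * M + 4) * θ * (1 / (1 + ‖w‖) ^ 2)) / d0 ^ 2 :=
              div_le_div₀ (by positivity) hnum (by positivity) hden
          _ = ((4 * M + 4) * θ / d0 ^ 2) * (1 / (1 + ‖w‖) ^ 2) := by ring
          _ ≤ _ := mul_le_mul_of_nonneg_left k0 (by positivity)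
      have hre : (GG f f w).re = ‖U‖ ^ 2 * (-(κ0 w ^ 2 / ((w - z) * (w - (-x + t * I)))).re - E.re) := by
        rw [hGG, hdiff, Complex.neg_re, Complex.re_ofReal_mul, Complex.add_re]
        ring
      rw [hre]
      have hE2 : -E.re ≤ ((4 * M + 4) * θ / d0 ^ 2) * (1 / (1 + ((ρ : ℂ).im - 0) ^ 2)) :=
        (neg_le_abs _).trans ((Complex.abs_re_le_norm E).trans hEb)
      have hm0 : (0 : ℝ) ≤ (mu ρ : ℝ) := Nat.cast_nonneg _
      have e6 : (mu ρ : ℝ) * (‖U‖ ^ 2 * (-(κ0 w ^ 2 / ((w - z) * (w - (-x + t * I)))).re - E.re)) =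
          ‖U‖ ^ 2 * (-T ρ + (mu ρ : ℝ) * (-E.re)) := by
        simp only [hT]
        ring
      rw [e6]
      refine mul_le_mul_of_nonneg_left ?_ (by positivity)
      have := mul_le_mul_of_nonneg_left hE2 hm0
      have e7 : (mu ρ : ℝ) * ((4 * M + 4) * θ / d0 ^ 2 * (1 / (1 + ((ρ : ℂ).im - 0) ^ 2))) = ((4 * M + 4) * θ / d0 ^ 2) * ((mu ρ : ℝ) * (1 / (1 + ((ρ : ℂ).im - 0) ^ 2))) := by ring
      linarith
    have hsR : Summable (fun ρ : Zt => ‖U‖ ^ 2 * (-T ρ + ((4 * M + 4) * θ / d0 ^ 2) * ((mu ρ : ℝ) * (1 / (1 + ((ρ : ℂ).im - 0) ^ 2))))) :=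
      (hsum.neg.add ((zsummable 0).mul_left _)).mul_left _
    have hle2 : QQ f ≤ ∑' ρ : Zt, ‖U‖ ^ 2 * (-T ρ + ((4 * M + 4) * θ / d0 ^ 2) * ((mu ρ : ℝ) * (1 / (1 + ((ρ : ℂ).im - 0) ^ 2)))) :=
      (GG_sum ha hf).tsum_le_tsum hpt hsR
    refine hle2.trans ?_
    rw [tsum_mul_left]
    refine mul_le_mul_of_nonneg_left ?_ (by positivity)
    rw [(hsum.neg).tsum_add ((zsummable 0).mul_left _), tsum_neg, tsum_mul_left]
    have h8 := hKs 0
    have hlog : 0 ≤ Real.log (2 + |t|) := Real.log_nonneg (by linarith [abs_nonneg t])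
    have h9 : (Lc t (x + t * I) + C1 * Real.log (2 + |t|)) / x ≤ (Lc t (x + t * I) + C * Real.log (2 + |t|)) / x := by
      refine div_le_div_of_nonneg_right ?_ hx.le
      have := mul_le_mul_of_nonneg_right (le_max_left C1 ((4 * M + 4) * (K * Lg 0))) hlog
      rw [← hC] at this
      linarith
    have h10 : ((4 * M + 4) * θ / d0 ^ 2) * ∑' ρ : Zt, (mu ρ : ℝ) * (1 / (1 + ((ρ : ℂ).im - 0) ^ 2)) ≤ C * θ / d0 ^ 2 := by
      calc _ ≤ ((4 * M + 4) * θ / d0 ^ 2) * (K * Lg 0) := mul_le_mul_of_nonneg_left h8 (by positivity)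
        _ = ((4 * M + 4) * (K * Lg 0)) * θ / d0 ^ 2 := by ring
        _ ≤ _ := by
            refine div_le_div_of_nonneg_right ?_ (by positivity)
            exact mul_le_mul_of_nonneg_right (le_max_right _ _) hθ0
    have h11 := hle
    linarith
  · -- the norm
    have h3 := N2_div_off hF.1 hf.1 hfT
    rw [hzre] at h3
    refine h3.trans ?_
    have h4 := Y23.N2_add_le hG0.1 (hG1.smul (-U)).1
    have e : (fun v => G0 v - U * G1 v) = (fun v => G0 v + -U * G1 v) := by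
      funext v; ring
    rw [e]
    refine h4.trans (le_of_eq ?_)
    rw [Y23.N2_smul, norm_neg]
    ring

end Pool.Agent.Q240.EW
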