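import Pool.Agent.Q240.EW.Stm4

/-! # Project EW2: the number of the zeros in a window -/

set_option autoImplicit false

open Complex Filter Topology Set MeasureTheory

namespace Pool.Agent.Q240.EW

open Pool.Agent.Y23 (Zt IsZ mu Lg zsum)

/-- the zeros in a window -/
lemma cw : ∃ K : ℝ, 0 < K ∧ ∀ (S : Finset ℂ) (T R B : ℝ), (∀ ρ ∈ S, IsZ ρ) → (∀ ρ ∈ S, |ρ.im - T| ≤ R) → 1 ≤ R → |T| ≤ B → R ≤ B →
    ((∑ ρ ∈ S, mu ρ : ℕ) : ℝ) ≤ K * R * Real.log (3 + 3 * B) := by
  classical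
  obtain ⟨K, hK, h⟩ := zsum
  refine ⟨10 * K, by positivity, fun S T R B hS hT hR hB hRB => ?_⟩
  set k0 : ℕ := ⌈R⌉₊ with hk0
  have hk1 : (k0 : ℝ) ≤ 2 * R := by
    have := Nat.ceil_lt_add_one (by linarith : 0 ≤ R)
    linarith
  have hk2 : R ≤ k0 := Nat.le_ceil R
  set I : Finset ℤ := Finset.Icc (-(k0 : ℤ)) k0 with hI
  have hcard : (I.card : ℝ) ≤ 5 * R := by
    have e : I.card = 2 * k0 + 1 := by
      rw [hI, Int.card_Icc]; omega
    rw [e]; push_cast; linarith
  have h1 : ∀ ρ ∈ S, (mu ρ : ℝ) ≤ ∑ k ∈ I, 2 * ((mu ρ : ℝ) * (1 / (1 + (ρ.im - (T + k)) ^ 2))) := by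
    intro ρ hρ
    set k : ℤ := round (ρ.im - T) with hk
    have hkr : |ρ.im - T - k| ≤ 1 / 2 := abs_sub_round _
    have hkI : k ∈ I := by
      rw [hI, Finset.mem_Icc]
      have h2 := abs_le.1 (hT ρ hρ)
      have h3 := abs_le.1 hkr
      constructor
      · have : (-(k0 : ℝ)) - 1 < k := by linarith
        have h4 : ((-(k0 : ℤ) - 1 : ℤ) : ℝ) < (k : ℝ) := by push_cast; exact this
        have := Int.cast_lt.1 h4
        omega
      · have : (k : ℝ) < k0 + 1 := by linarith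
        have h4 : (k : ℝ) < (((k0 : ℤ) + 1 : ℤ) : ℝ) := by push_cast; exact this
        have := Int.cast_lt.1 h4
        omega
    refine le_trans ?_ (Finset.single_le_sum (f := fun k : ℤ => 2 * ((mu ρ : ℝ) * (1 / (1 + (ρ.im - (T + k)) ^ 2)))) (fun i _ => by positivity) hkI)
    have e : ρ.im - (T + k) = ρ.im - T - k := by ring
    rw [e]
    have h5 : (1 : ℝ) ≤ 2 * (1 / (1 + (ρ.im - T - k) ^ 2)) := by
      rw [mul_one_div, le_div_iff₀ (by positivity)]
      have := (sq_abs (ρ.im - T - k))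
      nlinarith [abs_nonneg (ρ.im - T - k)]
    calc (mu ρ : ℝ) = (mu ρ : ℝ) * 1 := (mul_one _).symm
      _ ≤ (mu ρ : ℝ) * (2 * (1 / (1 + (ρ.im - T - k) ^ 2))) := mul_le_mul_of_nonneg_left h5 (Nat.cast_nonneg _)
      _ = _ := by ring
  push_cast
  have hB0 : 0 ≤ B := (abs_nonneg T).trans hB
  have hlog : 0 ≤ Real.log (3 + 3 * B) := Real.log_nonneg (by linarith)
  calc ∑ ρ ∈ S, (mu ρ : ℝ) ≤ ∑ ρ ∈ S, ∑ k ∈ I, 2 * ((mu ρ : ℝ) * (1 / (1 + (ρ.im - (T + k)) ^ 2))) := Finset.sum_le_sum h1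
    _ = ∑ k ∈ I, 2 * ∑ ρ ∈ S, (mu ρ : ℝ) * (1 / (1 + (ρ.im - (T + k)) ^ 2)) := by
        rw [Finset.sum_comm]
        refine Finset.sum_congr rfl fun k _ => ?_
        rw [Finset.mul_sum]
    _ ≤ ∑ _k ∈ I, 2 * (K * Real.log (3 + 3 * B)) := by
        refine Finset.sum_le_sum fun k hk => ?_
        have h6 := h (T + k) S (fun s hs => hS s hs)
        have h7 : Lg (T + k) ≤ Real.log (3 + 3 * B) := by
          unfold Lg
          refine Real.log_le_log (by positivity) ?_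
          have h8 : |(k : ℝ)| ≤ k0 := by
            rw [hI, Finset.mem_Icc] at hk
            rw [abs_le]
            constructor
            · have := hk.1; exact_mod_cast this
            · have := hk.2; exact_mod_cast this
          have h9 := abs_add_le T k
          linarith
        have h10 := mul_le_mul_of_nonneg_left h7 hK.le
        linarith
    _ = I.card * (2 * (K * Real.log (3 + 3 * B))) := by rw [Finset.sum_const, nsmul_eq_mul]
    _ ≤ 5 * R * (2 * (K * Real.log (3 + 3 * B))) := mul_le_mul_of_nonneg_right hcard (by positivity)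
    _ = _ := by ring

end Pool.Agent.Q240.EW
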