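import Pool.Agent.Q240.PR.Stm3

set_option autoImplicit false

/-!
# Project EW (effective Weil criterion): definitions and statements of the lemma jobs

Every statement is a `def S_xxx : Prop`; prove `theorem xxx : S_xxx` in a file of your own (the hypotheses `h1 : S_yyy` may be used).
Library: `Pool.Agent.Y23` (import `Pool.Agent.Y23.Z.F6`, `Pool.Agent.Y23.We6`): `TT f w = ∫ f x exp (w x)`, `Fa a f`, `N2 f`, `Hd a f`, `QQ f` (Weil's form as a sum over the zeros `Zt`, `mu` = multiplicity),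
`mu_eq`, `half_re`, `isZ_iff`, `rfZ` (the reflection on the zeros), `zsummable`, `zsum_le`, `XX w = 8 ξ(1/2 + w)`, `XX_diff`; the superposed kernel `uK L p b` (`Y23/Ka1.lean` to `Ka3.lean`: `TT_uK`, `tK_bound`, `AK`, `TT_PhC`), `AK_im`, `AK_diff`,
`AK_even`, `AK_low` (`Y23/Kb1.lean`); `RA` (`Q214/PR/AkB.lean`, `AkC.lean`), `Sm.decay` (`Q214/PR/SmA.lean`), the model for smoothed trial functions `Q214/PR/Tr1w.lean`, `Q214/PR/Tr1.lean`; `Fn`, `Fn_Hn`, `tail_bound` (`Q123/PR/TrA.lean`), the model for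
finite degree: `Q240/PR/TrXw.lean`; `G.F.Hn a ν f` (degree at most `ν`), `Hn.div` (`Y23/F/Hn.lean`).
-/

open Polynomial Filter Topology Finset MeasureTheory
open Pool.Agent.H24R2.JP (XX)

namespace Pool.Agent.Q240.EW

/-! ### 1. The kernel -/

/-- an even bump function with integral one and support in `[-1, 1]` -/
structure Bump (ψ : ℝ → ℝ) : Prop where
  smooth : ∀ k : ℕ, ContDiff ℝ k ψ
  nonneg : ∀ x, 0 ≤ ψ x
  even : ∀ x, ψ (-x) = ψ x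
  supp : ∀ x, 1 ≤ |x| → ψ x = 0
  one : ∫ x, ψ x = 1

/-- the transform of a bump function -/
noncomputable def Ps (ψ : ℝ → ℝ) (w : ℂ) : ℂ := Y23.TT (fun x => (ψ x : ℂ)) w

/-- the main part of the transform of the trial function: the kernel is superposed at the scale `L = exp (2 b)` and smoothed at the scale `s / L` -/
noncomputable def Pb (ψ : ℝ → ℝ) (s p b : ℝ) (w : ℂ) : ℂ :=
  Y23.AK (Real.exp (2 * b)) p w * (XX w / 8) * Ps ψ (((s * Real.exp (-(2 * b)) : ℝ) : ℂ) * w)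

/-- the size of the main part at `0` -/
noncomputable def Bb (p b : ℝ) : ℝ := ‖Y23.AK (Real.exp (2 * b)) p 0‖

/-- `s` is small for `ψ` -/
def Sml (ψ : ℝ → ℝ) (s : ℝ) : Prop := 0 < s ∧ s ≤ 1 / 2 ∧ ∀ w : ℂ, ‖w‖ ≤ 14 → 1 / 2 ≤ ‖Ps ψ ((s : ℂ) * w)‖

/-- **Bmp**: there is a bump function with a small scale. Proof. A normalised `ContDiffBump` (compare `exists_bmp` in `Q214/PR/DetP.lean`); `Ps ψ` is continuous and `Ps ψ 0 = 1`. -/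
def S_Bmp : Prop := ∃ (ψ : ℝ → ℝ) (s : ℝ), Bump ψ ∧ Sml ψ s

/-- **Ker**: the elementary properties of the main part.
Proof. (1) `AK_diff`, `XX_diff`, `differentiable_TT`. (2) `AK_even`, `XX` is even (`Y23`: `XX_neg` or `H24R2.JP`), `ψ` is even. (3) `AK L p (conj w) = conj (AK L p w)` (substitute `φ → -φ` in the definition), `XX (conj w) = conj (XX w)`, `ψ` is real.
(4) For `w = η + v I`: `‖AK L p w‖ ≤ ∫_{-p}^{p} exp (2 π L cos φ) exp (|v| p / 2) dφ = exp (p |v| / 2) ‖AK L p 0‖`; for `φ0 = (p / 2 + π / 4) / 2 < π / 4` and `|Re w| ≤ 2` `‖XX w‖ ≤ C exp (- φ0 |v|)`: as in `Y23.Z.XX_decay` (`Y23/Z/F1.lean`) from `TT_PhC` with `y = ± φ0`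
(now `‖exp (w x)‖ ≤ exp (2 |x|)`: use `PhC_gauss` or `PhC_bd`); `‖Ps ψ z‖ ≤ exp |Re z|`. So `c1 = φ0 - p / 2`. (5) For real `x ∈ [0, 1/2]` `AK L p x = ∫ exp (2 π L cos φ) cos (x φ / 2) dφ ≥ (1/2) AK L p 0` (compare `AK_low_one`), `XX x = 8 ∫ Ph y exp (x y) dy ≥ c > 0`
(`XX_int`, `Ph_pos`; continuity on `[0, 1/2]`), `Ps ψ x = ∫ ψ y cosh (x y) dy ≥ 1`. (6) Cauchy's estimate on the disc of radius `1` in the strip `|Re w| ≤ 2` from (4), and the mean value inequality in the convex strip `|Re w| ≤ 1`. -/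
def S_Ker : Prop := ∀ (ψ : ℝ → ℝ) (s p : ℝ), Bump ψ → Sml ψ s → 0 < p → p < Real.pi / 2 →
  (∀ b : ℝ, Differentiable ℂ (Pb ψ s p b)) ∧ (∀ (b : ℝ) (w : ℂ), Pb ψ s p b (-w) = Pb ψ s p b w) ∧
  (∀ (b : ℝ) (w : ℂ), Pb ψ s p b ((starRingEnd ℂ) w) = (starRingEnd ℂ) (Pb ψ s p b w)) ∧
  ∃ M c1 : ℝ, 0 < M ∧ 0 < c1 ∧ ∀ b : ℝ, 0 ≤ b →
    (∀ w : ℂ, |w.re| ≤ 2 → ‖Pb ψ s p b w‖ ≤ M * Bb p b * Real.exp (-(c1 * |w.im|))) ∧
    (∀ x : ℝ, 0 ≤ x → x ≤ 1 / 2 → Bb p b ≤ M * ‖Pb ψ s p b x‖) ∧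
    ∀ w w' : ℂ, |w.re| ≤ 1 → |w'.re| ≤ 1 → ‖Pb ψ s p b w - Pb ψ s p b w'‖ ≤ M * Bb p b * ‖w - w'‖

/-- **Siz**: the size at `0` (`RA_low`, `RA_up`, `AK_zero` in `Q214/PR/AkB.lean`). -/
def S_Siz : Prop := ∀ p ε : ℝ, 0 < p → p < Real.pi / 2 → 0 < ε → ∃ b0 : ℝ, ∀ b : ℝ, b0 ≤ b →
  Real.exp ((2 * Real.pi - ε) * Real.exp (2 * b)) ≤ Bb p b ∧ Bb p b ≤ Real.exp ((2 * Real.pi + ε) * Real.exp (2 * b))

/-- **Low**: the lower bound at the points of the strip up to the height `13 L`.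
Proof. `w = x + v I`; we may assume `v ≥ 0` (conjugation). `AK L p w = ∫ exp (2 π L cos φ) exp (v φ / 2) exp (- I x φ / 2) dφ`, `|x φ / 2| ≤ π / 8`, so `‖AK L p w‖ ≥ Re ≥ cos (π / 8) AK L p (v I) ≥ (1/2) κ exp (2 π L cos q) exp (v (q - κ) / 2)` (`AK_low` with `φe = q`, `0 < κ ≤ q`;
for the real part compare `AK_low_one`). Take `κ = min q (ε / 26)`, so `v κ / 2 ≤ ε L / 4`; `‖Ps ψ (s w / L)‖ ≥ 1/2` because `‖w / L‖ ≤ 14` (`L ≥ 1`); constants are absorbed by `exp (ε L / 2)`. -/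
def S_Low : Prop := ∀ (ψ : ℝ → ℝ) (s p q ε : ℝ), Bump ψ → Sml ψ s → 0 < q → q < p → p < Real.pi / 2 → 0 < ε → ∃ b0 : ℝ, ∀ b : ℝ, b0 ≤ b →
  ∀ w : ℂ, 0 ≤ w.re → w.re ≤ 1 / 2 → |w.im| ≤ 13 * Real.exp (2 * b) →
    Real.exp ((2 * Real.pi * Real.cos q - ε) * Real.exp (2 * b) + |w.im| * q / 2) * ‖XX w‖ ≤ ‖Pb ψ s p b w‖

/-- **Gn**: the trial functions, shifted by `t` and of finite degree.
Proof. As in `Q214/PR/Tr1w.lean` and `Q240/PR/TrXw.lean`. Let `X = exp (2 a)`, `b = a - δ`, `L = exp (2 b)`, `ε' = ε / 8`, `p > q` with `π (cos p + exp (- σ)) < ε'` and `2 π cos p < ε'` (`exists_pσ`). `T = uK L p b * ψ_σ'` (convolution), `ψ_σ' y = ψ (y / σ') / σ'`, `σ' = s / L`: support in `[-(b + σ'), b + σ']`, contained in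
`[-a, a]` for large `a`; `TT T w = Pb ψ s p b w - tK L p b w * Ps ψ (σ' w)` (`G.conv_TT`, `TT_uK`), the last term is at most `exp (2 ε' X) / (1 + ‖w‖)^6` for `|Re w| ≤ 1` (`tK_bound`, `Sm.decay` for `k = 6`, `(1 + ‖σ' w‖) ≥ σ' (1 + ‖w‖)`). `T1 x = T x * exp (- i t x)`, so
`TT T1 w = TT T (w - t I)`, with the error `exp (3 ε' X) / (1 + ‖w‖)^6` (`1 + ‖w‖ ≤ 14 X (1 + ‖w - t I‖)`). On the line: `‖Pb (v I)‖ ≤ M Bb exp (- c1 |v|)` (`S_Ker`), and for `|v| ≥ 4 π L` the better bound `‖Pb (v I)‖ ≤ C exp (2 π L cos p + |v| p / 2) exp (- φ0 |v|) ≤ C exp (ε' L) exp (- c1 |v|)`, because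
`φ ↦ 2 π L cos φ + |v| φ / 2` increases on `[0, p]`. For a node `i v`, `v = π k / a`, `|k| > n`: `|v| ≥ 4 π X`, so `|v - t| ≥ 4 π L` and `|v - t| ≥ exp (- 2 δ) |v|`; so `‖TT T1 (i v)‖ ≤ exp (5 ε' X) / (1 + |v|)^6`. Now `G = Fn a T1 n` and `tail_bound`. -/
def S_Gn : Prop := ∀ (ψ : ℝ → ℝ) (s q ε : ℝ), Bump ψ → Sml ψ s → q < Real.pi / 2 → 0 < ε → ∃ p : ℝ, q < p ∧ 0 < p ∧ p < Real.pi / 2 ∧
  ∀ δ : ℝ, 0 < δ → ∃ A : ℝ, ∀ (a : ℝ) (n : ℕ) (t : ℝ), A ≤ a → 4 * a * Real.exp (2 * a) ≤ n → |t| ≤ 4 * Real.pi * (1 - Real.exp (-(2 * δ))) * Real.exp (2 * a) →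
    ∃ G : ℝ → ℂ, Y23.G.F.Hn a (n : ℕ∞) G ∧
      ∀ w : ℂ, |w.re| ≤ 1 → ‖Y23.TT G w - Pb ψ s p (a - δ) (w - t * Complex.I)‖ ≤ Real.exp (ε * Real.exp (2 * a)) / (1 + ‖w‖) ^ 2

/-! ### 2. The zeros near a point -/

/-- **Fac**: the local factorisation of `XX`.
Proof. Let `c = 10 + t I`, `g u = XX (c + 16 u) / XX c`. There is `K` with `‖g u‖ ≤ exp A`, `A = K log (2 + |t|)`, for `‖u‖ ≤ 2`: for `t ≥ T0` from `H24R2/DZ/XB.lean` (`xb : SXB`, in `H24R2/DZ/Spec.lean`; `R = 42`; lower bound at `u = 10`), for `t ≤ -T0` by conjugation (`XX (conj w) = conj (XX w)`), and for `|t| ≤ T0` by compactness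
(`XX c ≠ 0`: all zeros have `|Re| ≤ 1/2`, `isZ_iff`, or `XX_ne`). Apply `Q240.QS.decomp` (`Q240/QS/MinMod.lean`): `g u = ∏ (u - a) * k' u` for `‖u‖ ≤ 2`, at most `3 A` factors, `‖a‖ < 1`, `k'` without zeros in the unit disc, `‖k'‖ ≤ exp A`, `‖k' 0‖ ≥ exp (-A)`. Let `s` = the image of the multiset under `a ↦ c + 16 a`,
`k w = XX c * 16^(-card s) * k' ((w - c) / 16)`. For `‖w - t I‖ ≤ 4`: `‖(w - c) / 16‖ ≤ 7/8`, and `Helper242.RK.harnack` (radius `1`) gives `‖k'‖ ≥ exp (- 33 A)`. Finally `‖XX c‖ ≥ c0 exp (- π |t| / 4)`: `XX c = (4 c² - 1) Γ_ℝ(1/2 + c) ζ(1/2 + c)`, `‖ζ‖ ≥ 1 - ∑_{n ≥ 2} n^(-21/2) ≥ 1/2`, and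
`‖Γ(21/4 + i t / 2)‖ ≥ (Γ(21/4) / Γ(1/2)) ‖Γ(1/2 + i t / 2)‖ ≥ c exp (- π |t| / 4)` (`gamma_mono`, `gamma_half` in `H491R3/Gam.lean`). The multiplicities: near a zero `b` with `|Im b - t| ≤ 1` (so `‖(b - c) / 16‖ < 1`) `XX` is the product times a function without zero, so the order is the number of the factors; `mu_eq`. -/
def S_Fac : Prop := ∃ C : ℝ, 1 ≤ C ∧ ∀ t : ℝ, ∃ (s : Multiset ℂ) (k : ℂ → ℂ),
  ((Multiset.card s : ℕ) : ℝ) ≤ C * Real.log (2 + |t|) ∧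
  (∀ w : ℂ, ‖w - t * Complex.I‖ ≤ 4 → XX w = (s.map fun b => w - b).prod * k w) ∧
  (∀ w : ℂ, ‖w - t * Complex.I‖ ≤ 4 → Real.exp (-(Real.pi / 4 * |t|) - C * Real.log (2 + |t|)) ≤ ‖k w‖) ∧
  (∀ b ∈ s, XX b = 0 ∧ |b.re| ≤ 1 / 2 ∧ |b.im - t| ≤ 16) ∧
  ∀ ρ : Y23.Zt, |(ρ : ℂ).im - t| ≤ 1 → s.count ((ρ : ℂ) - 1 / 2) = Y23.mu ρ

/-- the real part of the sum of `1 / (z - w)` over the zeros with `|Im w - t| ≤ 1` -/
noncomputable def Lc (t : ℝ) (z : ℂ) : ℝ := by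
  classical exact ∑' ρ : Y23.Zt, if |(ρ : ℂ).im - t| ≤ 1 then (Y23.mu ρ : ℝ) * (1 / (z - ((ρ : ℂ) - 1 / 2))).re else 0

/-- **Loc**: the sum over the multiset of the local zeros. Proof. The zeros of `s` with `|Im b - t| > 1` contribute at most `card s` (`|z - b| ≥ |Im b - t| > 1`). The others: `s.filter` summed over the distinct elements with their multiplicities (`Finset.sum_multiset_map_count` or
`Multiset.sum_map` and `count`), which are the zeros `ρ - 1/2` with `|Im ρ - t| ≤ 1` (a finite set: they all lie in `s`, if `mu ρ ≥ 1`; `isZ_iff`, `half_re`), so the sum `Lc` is a finite sum. -/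
def S_Loc : Prop := ∀ (s : Multiset ℂ) (t x : ℝ), (∀ b ∈ s, XX b = 0 ∧ |b.re| ≤ 1 / 2 ∧ |b.im - t| ≤ 16) →
  (∀ ρ : Y23.Zt, |(ρ : ℂ).im - t| ≤ 1 → s.count ((ρ : ℂ) - 1 / 2) = Y23.mu ρ) →
  |Lc t (x + t * Complex.I) - (s.map fun b => (1 / ((x : ℂ) + t * Complex.I - b)).re).sum| ≤ (Multiset.card s : ℕ)

/-- **Zc**: the choice of the point. Uses nothing.
Proof. `P w = ∏ (w - b)`, `φ x = ‖P (x + t I)‖`, `N = card s`. By `Q240.QS.real_prod` (`Q240/QS/MinMod.lean`) for the multiset of the real parts and `ρ = η / 2` there is `r0 ∈ [η/2, η]` with `φ r0 ≥ ∏ |r0 - Re b| ≥ (η / 8)^N > 0`, and `φ η = 0`, so `r0 < η`. Let `v = φ r0 * exp (- (K + 1) / 4)`, and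
`x1 = inf {x ∈ [r0, η] : φ x ≤ v}` (closed set, contains `η`), so `φ x1 = v`, `r0 < x1`, and `φ > v > 0` on `[r0, x1)`. `F x = log φ x = ∑ log ‖x + t I - b‖` has the derivative `∑ Re (1 / (x + t I - b))` there, and `F x1 - F r0 = - (K + 1) / 4`; by the mean value theorem there is `x ∈ (r0, x1)` with
`F' x = - (K + 1) / (4 (x1 - r0)) ≤ - (K + 1)` (`x1 - r0 ≤ η / 2 ≤ 1/4`), and `φ x > v ≥ (η / 8)^N exp (- (K + 1) / 4)`. -/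
def S_Zc : Prop := ∀ (s : Multiset ℂ) (η t K : ℝ), 0 < η → η ≤ 1 / 2 → 0 ≤ K → ((η : ℂ) + t * Complex.I) ∈ s →
  ∃ x : ℝ, η / 2 ≤ x ∧ x < η ∧ (∀ b ∈ s, (x : ℂ) + t * Complex.I ≠ b) ∧
    (s.map fun b => (1 / ((x : ℂ) + t * Complex.I - b)).re).sum ≤ -K ∧
    (η / 8) ^ (Multiset.card s) * Real.exp (-(K + 1)) ≤ ‖(s.map fun b => (x : ℂ) + t * Complex.I - b).prod‖

/-- **Sum**: the sum over all zeros in Weil's form of the resolvent functions.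
Proof. `z = x + t I`, `w = ρ - 1/2`, `z + conj z = 2 x`: `1 / ((w - z) (w + conj z)) = (1 / (2 x)) (1 / (w - z) - 1 / (w + conj z))`. If `|Im w - t| ≤ 1`: `κ² / (w - z) = 1 / (w - z) + O(M)` and `κ² / (w + conj z) = 1 / (w + conj z) + O(M)` (the two Lipschitz conditions; `w + conj z = w - (- x + t I)`). If `|Im w - t| > 1`: both terms are at
most `M² / (1 + |Im w - t|)² / |Im w - t| ≤ M² / (1 + (Im w - t)²)`. Let `Sloc = ∑_{|Im w - t| ≤ 1} mu Re (1 / (z - w)) = Lc t z`. Then `∑_{loc} mu Re (1 / (conj z + w)) = Sloc` too, as `Re (1 / (conj z + w)) = Re (1 / (z - (- conj w)))` and `w ↦ - conj w` (`rfZ`, `rfZ_sub`, `mu_rfZ`) permutes the local zeros. The errors add up to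
`C ∑ mu / (1 + (Im w - t)²) ≤ C K Lg t` (`zsum_le`; `1 ≤ 2 / (1 + (Im w - t)²)` for the local zeros), `Lg t = log (3 + |t|) ≤ 2 log (2 + |t|)`. -/
def S_Sum : Prop := ∀ M : ℝ, 0 < M → ∃ C : ℝ, ∀ (t x : ℝ) (κ : ℂ → ℂ), 0 < x → x ≤ 1 / 2 →
  (∀ ρ : Y23.Zt, (ρ : ℂ) - 1 / 2 ≠ x + t * Complex.I) →
  (∀ w : ℂ, |w.re| ≤ 1 / 2 → ‖κ w‖ ≤ M / (1 + |w.im - t|)) →
  (∀ w : ℂ, |w.re| ≤ 1 / 2 → ‖κ w ^ 2 - 1‖ ≤ M * ‖w - (x + t * Complex.I)‖) →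
  (∀ w : ℂ, |w.re| ≤ 1 / 2 → ‖κ w ^ 2 - 1‖ ≤ M * ‖w - (-x + t * Complex.I)‖) →
  (Summable fun ρ : Y23.Zt => (Y23.mu ρ : ℝ) * (κ ((ρ : ℂ) - 1 / 2) ^ 2 / ((((ρ : ℂ) - 1 / 2) - (x + t * Complex.I)) * (((ρ : ℂ) - 1 / 2) - (-x + t * Complex.I)))).re) ∧
  -(∑' ρ : Y23.Zt, (Y23.mu ρ : ℝ) * (κ ((ρ : ℂ) - 1 / 2) ^ 2 / ((((ρ : ℂ) - 1 / 2) - (x + t * Complex.I)) * (((ρ : ℂ) - 1 / 2) - (-x + t * Complex.I)))).re) ≤
    (Lc t (x + t * Complex.I) + C * Real.log (2 + |t|)) / x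

/-! ### 3. The result -/

/-- the exponent `4 π (1 - sin u + u cos u)` -/
noncomputable def ex (u : ℝ) : ℝ := 4 * Real.pi * (1 - Real.sin u + u * Real.cos u)

/-- **EW**: the effective criterion. -/
def S_EW : Prop := ∀ u c : ℝ, 0 < u → u ≤ Real.pi / 2 → ex u < c → ∃ κ A : ℝ, 0 < κ ∧ ∀ (a : ℝ) (ν : ℕ∞), A ≤ a →
  ((⌈4 * a * Real.exp (2 * a)⌉₊ : ℕ) : ℕ∞) ≤ ν → (∀ f : ℝ → ℂ, Y23.G.F.Hn a ν f → -(Real.exp (-(c * Real.exp (2 * a))) * Y23.N2 f) ≤ Y23.QQ f) →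
    ∀ ρ : Y23.Zt, |(ρ : ℂ).im| ≤ 4 * Real.pi * Real.cos u * Real.exp (2 * a) → |(ρ : ℂ).re - 1 / 2| ≤ Real.exp (-(κ * Real.exp (2 * a) / a))

end Pool.Agent.Q240.EW
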