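import Pool.Agent.Q240.EW.Stm

set_option autoImplicit false

/-!
# Project EW, second part (any precision): definitions and statements of the lemma jobs

THEOREM. If Weil's form is at least `- exp (- Y) N` on `[-a, a]`, where `0 ≤ Y ≤ X = exp (2 a)` is arbitrary (so `exp (- Y)` may be a power of `X`), then all the zeros with `|Im| ≤ τ X`, `τ < 2 π`, are at distance at most `exp (- κ Y / a)` from the critical line.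
The trial functions are the rotated theta kernels `PhC (x + i y)`, `y = π / 4 - v / 2`, with `v = Y / X` up to a constant: everything has to be polynomial in `1 / v` and `X`.
Library: as in `Stm.lean`; `TT_PhC`, `PhC_bd`, `PhC_line_cont`, `PhC_line_int` (`Pool/Agent/Y23/Ka1.lean`), `Q79/EW/Gn.lean` (`Ps_decay`, `scaled`, `modul`, `gn`).
-/

open Polynomial Filter Topology Finset MeasureTheory
open Pool.Agent.H24R2.JP (XX)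
open Pool.Agent.Helper242.KK (PhC)

namespace Pool.Agent.Q240.EW

/-- the main part of the transform of the rotated kernel -/
noncomputable def Py (ψ : ℝ → ℝ) (s y b : ℝ) (w : ℂ) : ℂ :=
  Complex.exp (-(w * (y * Complex.I))) * (XX w / 8) * Ps ψ (((s * Real.exp (-(2 * b)) : ℝ) : ℂ) * w)

/-- **PhB**: the kernel near the boundary of its strip.
Proof. As `PhiC_bd`, `PhC_bd` (`Y23/Ka1.lean`), with the dependence on `c = cos (2 Im z)`. By `PhC_even` let `x = Re z ≥ 0`; `‖PhC z‖ ≤ C ∑ n⁴ exp (9 x / 2) exp (- π n² c exp (2 x))`; with `S = c exp (2 x)`: `∑ n⁴ exp (- π n² S) ≤ exp (- π S) (1 + ∑_{n ≥ 2} n⁴ exp (- π (3/4) n² S))`, and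
`exp (- y) ≤ 6 / y³`, so the sum is at most `exp (- π S) (1 + C / S³) ≤ exp (- π S) C / c³`. -/
def S_PhB : Prop := ∃ C : ℝ, 0 < C ∧ ∀ z : ℂ, |z.im| < Real.pi / 4 →
  ‖PhC z‖ ≤ C / Real.cos (2 * z.im) ^ 3 * Real.exp (5 * |z.re| - Real.pi * Real.cos (2 * z.im) * Real.exp (2 * |z.re|))

/-- **XXu**: the upper bound for `XX` in the strip. Uses `S_PhB`.
Proof. Both sides are invariant under conjugation, so let `Im w ≥ 0` (`XX (conj w) = conj (XX w)`). By `TT_PhC` with `y = π / 4 - v / 2`, `v = 1 / (1 + Im w)`: `exp (y Im w) ‖XX w‖ / 8 ≤ ∫ ‖PhC (x + i y)‖ exp (2 |x|) dx ≤ C c⁻³ ∫ exp (7 |x| - π c exp (2 |x|)) dx ≤ C' c⁻⁷`,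
`c = cos (2 y) = sin v ≥ v / 2`: for the integral use `exp (- π c exp (2 |x|)) ≤ C'' / (c exp (2 |x|))⁴`. And `exp (- y Im w) ≤ exp (- (π / 4) Im w) exp (1 / 2)`. -/
def S_XXu : Prop := ∃ C : ℝ, 0 < C ∧ ∀ w : ℂ, |w.re| ≤ 2 → ‖XX w‖ ≤ C * (1 + |w.im|) ^ 7 * Real.exp (-(Real.pi / 4 * |w.im|))

/-- **GnY**: the trial functions with the rotated kernel. Uses `S_PhB`, `S_XXu`.
Proof. As `gn` in `Q79/EW/Gn.lean`. `b = a - δ`, `y = π / 4 - v / 2`, `c = cos (2 y) = sin v ≥ v / 2 ≥ exp (- 2 a) / 2`, `σ' = s exp (- 2 b) ≤ δ` for large `a`. `T = (PhC (x + i y) on |x| ≤ b, 0 outside) * (scaled bump function of width σ')`, supported in `[-(b + σ'), b + σ'] ⊆ [-a, a]`.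
`TT T w = Py ψ s y b w - (∫_{|x| > b} PhC (x + i y) exp (w x) dx) * Ps ψ (σ' w)` (`TT_PhC`, `G.conv_TT`). For `|Re w| ≤ 1` the integral is at most `2 C c⁻³ ∫_b^∞ exp (6 x - π c exp (2 x)) dx ≤ exp (C' a) exp (- π c exp (2 b))` (`u = exp (2 x)`, or `exp (- π c (exp (2 x) - exp (2 b)))`
and `exp (2 x) - exp (2 b) ≥ 2 (x - b)`, `exp (2x) - exp (2b) ≥ exp (2b) ((exp (x - b)) ^ 2 - 1)`, ...), and `‖Ps ψ (σ' w)‖ ≤ C / (1 + ‖σ' w‖)^6 ≤ exp (C a) / (1 + ‖w‖)^6`. So `‖TT T w - Py‖ ≤ exp (C a) exp (- π c exp (2 b)) / (1 + ‖w‖)^6`. On the line by `S_XXu`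
`‖Py (i x)‖ ≤ C (1 + |x|)^7 exp (- (v / 2) |x|)` (`y |x| - (π / 4) |x| = - (v / 2) |x|`, also for `x < 0`). At a node `x = π k / a`, `|k| > n`: `|x| ≥ π θ X = Ω`, so `(1 + |x|)^13 exp (- (v / 2) |x|) ≤ exp (- (v / 2) Ω) (1 + Ω)^13 (1 + (|x| - Ω))^13 exp (- (v / 2) (|x| - Ω)) ≤ exp (C a) exp (- (v / 2) Ω)`,
as `1 / v ≤ X`. So `‖TT T (i x)‖ ≤ exp (C a) (exp (- π c exp (2 b)) + exp (- (v / 2) Ω)) / (1 + |x|)^6`. Now `G = Fn a T n` and `tail_bound` (`Q123/PR/TrA.lean`). -/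
def S_GnY : Prop := ∀ (ψ : ℝ → ℝ) (s δ θ : ℝ), Bump ψ → Sml ψ s → 0 < δ → 0 < θ → ∃ C A : ℝ, 0 < C ∧
  ∀ (a : ℝ) (n : ℕ) (v : ℝ), A ≤ a → θ * a * Real.exp (2 * a) ≤ n → Real.exp (-(2 * a)) ≤ v → v ≤ 1 →
    ∃ G : ℝ → ℂ, Y23.G.F.Hn a (n : ℕ∞) G ∧
      ∀ w : ℂ, |w.re| ≤ 1 → ‖Y23.TT G w - Py ψ s (Real.pi / 4 - v / 2) (a - δ) w‖ ≤
        Real.exp (C * a) * (Real.exp (-(Real.pi * Real.sin v * Real.exp (2 * (a - δ)))) + Real.exp (-(v / 2 * (Real.pi * θ * Real.exp (2 * a))))) / (1 + ‖w‖) ^ 2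

/-- **GnT**: `S_Gn` with an arbitrary degree. Proof. The same (`Q79/EW/Gn.lean`): for a node `i x`, `|x| ≥ π θ X`, we have `|x - t| ≥ 4 π exp (- 2 δ) X = 4 π L` and `|x - t| ≥ (4 exp (- 2 δ) / θ) |x|` (if `θ < 4 exp (- 2 δ)` there is no `t`). -/
def S_GnT : Prop := ∀ (ψ : ℝ → ℝ) (s q ε : ℝ), Bump ψ → Sml ψ s → q < Real.pi / 2 → 0 < ε → ∃ p : ℝ, q < p ∧ 0 < p ∧ p < Real.pi / 2 ∧
  ∀ δ θ : ℝ, 0 < δ → 0 < θ → ∃ A : ℝ, ∀ (a : ℝ) (n : ℕ) (t : ℝ), A ≤ a → θ * a * Real.exp (2 * a) ≤ n → |t| ≤ Real.pi * (θ - 4 * Real.exp (-(2 * δ))) * Real.exp (2 * a) →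
    ∃ G : ℝ → ℂ, Y23.G.F.Hn a (n : ℕ∞) G ∧
      ∀ w : ℂ, |w.re| ≤ 1 → ‖Y23.TT G w - Pb ψ s p (a - δ) (w - t * Complex.I)‖ ≤ Real.exp (ε * Real.exp (2 * a)) / (1 + ‖w‖) ^ 2

/-- **EW2**: the criterion with any precision. -/
def S_EW2 : Prop := ∀ τ ε : ℝ, 0 < τ → τ < 2 * Real.pi → 0 < ε → ∃ κ A : ℝ, 0 < κ ∧ ∀ (a Y : ℝ) (ν : ℕ∞), A ≤ a → 0 ≤ Y → Y ≤ Real.exp (2 * a) →
  ((⌈(τ / Real.pi + ε) * a * Real.exp (2 * a)⌉₊ : ℕ) : ℕ∞) ≤ ν → (∀ f : ℝ → ℂ, Y23.G.F.Hn a ν f → -(Real.exp (-Y) * Y23.N2 f) ≤ Y23.QQ f) →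
    ∀ ρ : Y23.Zt, |(ρ : ℂ).im| ≤ τ * Real.exp (2 * a) → |(ρ : ℂ).re - 1 / 2| ≤ Real.exp (-(κ * Y / a))

end Pool.Agent.Q240.EW
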