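import Pool.Agent.Q240.EW.Stm3

set_option autoImplicit false

/-!
# Project EW2, fourth part: negative directions

THEOREM. If Weil's form is at least `- exp (- Y) N` on the kernel of `m` linear forms, then all the zeros with `|Im| ≤ τ X` outside of `m` windows of length `2 C Y` are at distance at most `exp (- κ Y / a)` from the critical line.
-/

open Filter Topology Finset MeasureTheory

namespace Pool.Agent.Q240.EW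

/-- a function with a very negative value of Weil's form, concentrated (on the zeros) at the height of a zero off the line -/
def S_Good : Prop := ∀ τ ε : ℝ, 0 < τ → τ < 2 * Real.pi → 0 < ε → ∃ κ ϖ c1 A : ℝ, 0 < κ ∧ 0 < ϖ ∧ 15 * ϖ ≤ 1 / 5 ∧ 0 < c1 ∧
  ∀ (a Y : ℝ) (ν : ℕ∞), A ≤ a → 0 ≤ Y → Y ≤ Real.exp (2 * a) → ((⌈(τ / Real.pi + ε) * a * Real.exp (2 * a)⌉₊ : ℕ) : ℕ∞) ≤ ν →
    ∀ ρ : Y23.Zt, 1 / 2 < (ρ : ℂ).re → |(ρ : ℂ).im| ≤ τ * Real.exp (2 * a) → Real.exp (-(κ * Y / a)) < (ρ : ℂ).re - 1 / 2 →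
      4 * a ≤ ϖ * Y ∧ ∃ f : ℝ → ℂ, Y23.G.F.Hn a ν f ∧ Y23.QQ f ≤ -1 ∧ Y23.N2 f ≤ Real.exp (4 / 5 * Y) ∧
        ∀ ρ' : Y23.Zt, ‖Y23.TT f ((ρ' : ℂ) - 1 / 2)‖ ≤
          Real.exp (2 * (ϖ * Y)) * (Real.exp (-(c1 * |(ρ' : ℂ).im - (ρ : ℂ).im|)) + Real.exp (-(9 * (ϖ * Y))) / (1 + ‖(ρ' : ℂ) - 1 / 2‖) ^ 2)

/-- **EW3**: the criterion with negative directions. -/
def S_EW3 : Prop := ∀ τ ε : ℝ, 0 < τ → τ < 2 * Real.pi → 0 < ε → ∃ κ C A : ℝ, 0 < κ ∧ 0 < C ∧ ∀ (a Y : ℝ) (ν : ℕ∞), A ≤ a → 0 ≤ Y → Y ≤ Real.exp (2 * a) →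
  ((⌈(τ / Real.pi + ε) * a * Real.exp (2 * a)⌉₊ : ℕ) : ℕ∞) ≤ ν → ∀ (m : ℕ) (L : Fin m → (ℝ → ℂ) →ₗ[ℂ] ℂ),
    (∀ f : ℝ → ℂ, Y23.G.F.Hn a ν f → (∀ j, L j f = 0) → -(Real.exp (-Y) * Y23.N2 f) ≤ Y23.QQ f) →
      ∃ T : Fin m → ℝ, ∀ ρ : Y23.Zt, |(ρ : ℂ).im| ≤ τ * Real.exp (2 * a) → (∀ j, C * Y < |(ρ : ℂ).im - T j|) →
        |(ρ : ℂ).re - 1 / 2| ≤ Real.exp (-(κ * Y / a))

/-- **Cnt**: separated points. Proof. `i ↦ ⌊t i⌋` is injective with values in `[⌊-B⌋, ⌊B⌋]` (if two floors are equal, the difference is `< 1`). -/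
def S_Cnt : Prop := ∀ (m : ℕ) (t : Fin m → ℝ) (B : ℝ), 0 ≤ B → (∀ i, |t i| ≤ B) → (∀ i j, i ≠ j → 1 ≤ |t i - t j|) → (m : ℝ) ≤ 2 * B + 2

/-- **Fin3**: the pigeonhole argument.
Proof. Take `κ`, `ϖ`, `c1`, `A0` from `S_Good`, `C0` from `S_Mul` for `c1`, `C = 18 ϖ / c1 + ϖ`, `A = 1 + |A0| + C0 + ...`. By the reflection `rfZ` (`rfZ_val`: `Re` becomes `1 - Re`, `Im` stays; see the end of `Q240/EW/All2.lean`) it is enough to find `T` with: every `ρ` with `Re ρ > 1/2`, `|Im ρ| ≤ τ X`, `exp (- κ Y / a) < Re ρ - 1/2` has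
`|Im ρ - T j| ≤ C Y` for some `j`. If no `T` works, we find by induction for `i ≤ m + 1` such zeros `ρ_0, ..., ρ_(i-1)` with `|Im ρ_p - Im ρ_q| > C Y` for `p ≠ q` (take `T j = Im ρ_j` for `j < i`, and `0` for the other `j`). Let `f_0, ..., f_m` be the functions of `S_Good`, `t_i = Im ρ_i`, `R = C Y`, `M = m + 1`.
Since `4 a ≤ ϖ Y`: `R ≥ ϖ Y ≥ 1`, `M ≤ 2 τ X + 2 ≤ 16 X ≤ exp (ϖ Y)` (`S_Cnt`; `X = exp (2 a)`), `C0 log (3 + τ X) ≤ exp (ϖ Y)`, `exp (- c1 R / 2) ≤ exp (- 9 ϖ Y)`. There is `c : Fin M → ℂ`, `c ≠ 0`, with `∑ c i L_j (f i) = 0` for all `j` (`LinearMap.ker_ne_bot_of_finrank_lt`). For `f = ∑ c i f i` the lemma `S_Mul` with `D = exp (2 ϖ Y)`,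
`θ = exp (- 9 ϖ Y)` gives (with `(∑ ‖c i‖)² ≤ M ∑ ‖c i‖²`) `QQ f ≤ - S + exp (ϖ Y) exp (4 ϖ Y) 2 exp (- 9 ϖ Y) exp (ϖ Y) S ≤ - S / 2`, `S = ∑ ‖c i‖² > 0`, `N2 f ≤ exp (ϖ Y) exp (4 Y / 5) S`. So `S / 2 ≤ exp (- Y) exp (ϖ Y + 4 Y / 5) S`, and `1/5 - ϖ ≥ 14 ϖ`: `1 / 2 ≤ exp (- 14 ϖ Y)`, a contradiction. -/
def S_Fin3 : Prop := S_Mul → S_Good → S_EW3

end Pool.Agent.Q240.EW
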